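import Pool.Agent.GRZ.FinalB

set_option autoImplicit false

namespace Pool.Agent.Results.MP_260520_co.BipartiteSkeleton

open Pool.Agent.GRZ

/-- **Bipartite skeleton.** Let `G` be a finite simple connected plane graph with all degrees 2 or 3 such
that the cubic graph obtained by suppressing the vertices of degree 2 is bipartite, and such that the
number of straight colourings of `G` (which is the number of 3-edge-colourings of that cubic graph) is not
divisible by 9. If the number of vertices of degree 2 is not one, then `G` is 3-edge-colourable. -/
theorem result (V : Type) [Fintype V] [DecidableEq V] (G : SimpleGraph V) [DecidableRel G.Adj]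
    (hdeg : ∀ v, G.degree v = 2 ∨ G.degree v = 3) (hconn : G.Connected)
    (rot : Equiv.Perm G.Dart) (hrot : IsPlane G rot)
    (hbip : BipartiteSkeleton G) (h9 : ¬ 9 ∣ (straight G).card) (hk : numTwo G ≠ 1) :
    Col3 G :=
  main_bip G hdeg rot hrot hconn hbip h9 hk

end Pool.Agent.Results.MP_260520_co.BipartiteSkeleton
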