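import Pool.Agent.GRZ.FinalC

set_option autoImplicit false

namespace Pool.Agent.Results.MP_260520_co.HamiltonParity

open Pool.Agent.GRZ

/-- **3-edge-colourings and Hamiltonian cycles.** In every finite simple graph (planar or not) with all
degrees 2 or 3, the number of proper 3-edge-colourings is congruent modulo 4 to twice the number of
Hamiltonian cycles. In particular, if the number of Hamiltonian cycles is odd, then the graph is
3-edge-colourable. -/
theorem result (V : Type) [Fintype V] [DecidableEq V] [Nonempty V] (G : SimpleGraph V)
    [DecidableRel G.Adj] (hdeg : ∀ v, G.degree v = 2 ∨ G.degree v = 3) :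
    {c : G.edgeSet → Fin 3 | Proper3 G c}.ncard ≡ 2 * (hamCycles G).ncard [MOD 4] :=
  main_count G hdeg

end Pool.Agent.Results.MP_260520_co.HamiltonParity
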