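import Pool.Agent.GRZ.FinalN

set_option autoImplicit false

namespace Pool.Agent.Results.MP_260520_co.NineTest

open Pool.Agent.GRZ

/-- **Counterexamples with 9 not dividing the number of straight colourings.**
Let `G` be a finite simple connected plane graph with all degrees 2 or 3 whose number of straight
colourings (one colour at every vertex of degree 2, three colours at every vertex of degree 3) is not
divisible by 9. If `G` is not 3-edge-colourable, then the number of vertices of degree 2 is congruent to 1
modulo 3, any two vertices of degree 2 are at distance at least 3, and the vertices of degree 3 induce a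
connected graph. -/
theorem result (V : Type) [Fintype V] [DecidableEq V] (G : SimpleGraph V) [DecidableRel G.Adj]
    (hdeg : ∀ v, G.degree v = 2 ∨ G.degree v = 3) (hconn : G.Connected)
    (rot : Equiv.Perm G.Dart) (hrot : IsPlane G rot)
    (h9 : ¬ 9 ∣ (straight G).card) (hn : ¬ Col3 G) :
    numTwo G % 3 = 1 ∧
    (∀ u v, G.degree u = 2 → G.degree v = 2 → u ≠ v → 3 ≤ G.dist u v) ∧
    (G.induce {v | G.degree v = 3}).Preconnected :=
  main_nine G hdeg rot hrot hconn h9 hn

end Pool.Agent.Results.MP_260520_co.NineTest
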