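import Pool.Agent.GRZ.Final

set_option autoImplicit false

namespace Pool.Agent.Results.MP_260520_co.TaitPolynomial

open Pool.Agent.GRZ

/-- **A polynomial criterion for 3-edge-colourability of plane graphs with all degrees 2 or 3.**
Let `G` be a finite simple connected graph with all degrees 2 or 3, embedded in the plane, let `M` be any
set of edges and let `φ` prescribe a colour for every edge in `M`. Consider the straight colourings `h` of
`G` (one colour at every vertex of degree 2, three colours at every vertex of degree 3) that agree with
`φ` on `M`, and let `k i` be the number of vertices of degree 2 whose edges have colour `i`. If the sum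
over these `h` of `t 0 ^ k 0 * t 1 ^ k 1 * t 2 ^ k 2` is not zero for some commutative ring `R` and some
`t 0 + t 1 + t 2 = 0` in `R`, then `G` with the edges of `M` deleted is 3-edge-colourable. -/
theorem result (V : Type) [Fintype V] [DecidableEq V] (G : SimpleGraph V) [DecidableRel G.Adj]
    (hdeg : ∀ v, G.degree v = 2 ∨ G.degree v = 3) (hconn : G.Connected)
    (rot : Equiv.Perm G.Dart) (hrot : IsPlane G rot)
    (M : Set (Sym2 V)) (φ : G.edgeSet → Fin 3)
    (R : Type) [CommRing R] (t : Fin 3 → R) (ht : t 0 + t 1 + t 2 = 0)
    (hne : (∑ h ∈ straightOn G M φ, ∏ i, t i ^ colCount G h i) ≠ 0) :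
    Col3 (G.deleteEdges M) :=
  main_ring G hdeg rot hrot hconn M φ t ht hne

end Pool.Agent.Results.MP_260520_co.TaitPolynomial
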